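import Mathlib
import Pool.Agent.W247.OF

set_option autoImplicit false

namespace Pool.Agent.Results.MP_1bff7a_co.AlmostLinearM

open Filter Asymptotics

/-- A 0-1 matrix `A` contains a 0-1 matrix `P`: there are rows `r 0 < r 1 < ...` and columns
`c 0 < c 1 < ...` of `A` with `A (r i) (c j) = 1` whenever `P i j = 1`. -/
def Contains {m n k l : ℕ} (A : Matrix (Fin m) (Fin n) ℕ) (P : Matrix (Fin k) (Fin l) ℕ) : Prop :=
  ∃ r : Fin k → Fin m, StrictMono r ∧ ∃ c : Fin l → Fin n, StrictMono c ∧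
    ∀ i j, P i j = 1 → A (r i) (c j) = 1

/-- The number of 1 entries of a matrix. -/
def ones {m n : ℕ} (A : Matrix (Fin m) (Fin n) ℕ) : ℕ :=
  (Finset.univ.filter (fun p : Fin m × Fin n => A p.1 p.2 = 1)).card

/-- `Ex(P,n)`: the largest number of 1 entries in an `n × n` 0-1 matrix that avoids `P`. -/
noncomputable def Ex {k l : ℕ} (P : Matrix (Fin k) (Fin l) ℕ) (n : ℕ) : ℕ :=
  sSup {m : ℕ | ∃ A : Matrix (Fin n) (Fin n) ℕ,
    (∀ i j, A i j = 0 ∨ A i j = 1) ∧ ¬ Contains A P ∧ ones A = m}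

/-- The pattern of the problem. -/
def M : Matrix (Fin 4) (Fin 4) ℕ :=
  !![1, 0, 1, 0;
     0, 1, 0, 1;
     0, 0, 1, 0;
     1, 0, 0, 1]

theorem acyclic_of_rank {V : Type} (G : SimpleGraph V) (rk : V → ℕ) (hinj : Function.Injective rk)
    (h : ∀ u v, G.Adj u v → rk u + 1 = rk v ∨ rk v + 1 = rk u) : G.IsAcyclic := by
  rw [SimpleGraph.isAcyclic_iff_forall_adj_isBridge]
  intro v w hvw
  rw [SimpleGraph.isBridge_iff]
  rintro ⟨p⟩
  have key : ∀ x y : V, (G.deleteEdges {s(v, w)}).Walk x y →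
      (rk x ≤ min (rk v) (rk w) ↔ rk y ≤ min (rk v) (rk w)) := by
    intro x y q
    induction q with
    | nil => exact Iff.rfl
    | @cons a b d hab _ ih =>
      rw [← ih]
      rw [SimpleGraph.deleteEdges_adj] at hab
      obtain ⟨hab, hne⟩ := hab
      have h1 := h a b hab
      have h2 := h v w hvw
      have hne' : ¬ ((a = v ∧ b = w) ∨ (a = w ∧ b = v)) := by
        intro hh
        apply hne
        rw [Set.mem_singleton_iff, Sym2.eq_iff]
        exact hh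
      have hne'' : ¬ ((rk a = rk v ∧ rk b = rk w) ∨ (rk a = rk w ∧ rk b = rk v)) := by
        intro hh
        apply hne'
        rcases hh with ⟨e1, e2⟩ | ⟨e1, e2⟩
        · exact Or.inl ⟨hinj e1, hinj e2⟩
        · exact Or.inr ⟨hinj e1, hinj e2⟩
      omega
  have := key v w p
  have h2 := h v w hvw
  omega

/-- the ranks of the vertices along the path `r2 c2 r0 c0 r3 c3 r1 c1` -/
def rk : Fin 4 ⊕ Fin 4 → ℕ
  | Sum.inl 0 => 2
  | Sum.inl 1 => 6
  | Sum.inl 2 => 0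
  | Sum.inl 3 => 4
  | Sum.inr 0 => 3
  | Sum.inr 1 => 7
  | Sum.inr 2 => 1
  | Sum.inr 3 => 5

theorem rk_inj : Function.Injective rk := by
  intro a b h
  revert a b
  decide

/-- the support of `M` -/
def S : Finset (Fin 4 × Fin 4) := Finset.univ.filter (fun p => M p.1 p.2 = 1)

theorem rk_adj : ∀ p ∈ S, rk (Sum.inl p.1) + 1 = rk (Sum.inr p.2) ∨
    rk (Sum.inr p.2) + 1 = rk (Sum.inl p.1) := by
  decide

theorem acyclic_M : (SimpleGraph.fromRel (fun x y : Fin 4 ⊕ Fin 4 =>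
          ∃ i j, x = Sum.inl i ∧ y = Sum.inr j ∧ (i, j) ∈ S)).IsAcyclic := by
  apply acyclic_of_rank _ rk rk_inj
  intro u v huv
  rw [SimpleGraph.fromRel_adj] at huv
  obtain ⟨-, ⟨i, j, rfl, rfl, h⟩ | ⟨i, j, rfl, rfl, h⟩⟩ := huv
  · exact rk_adj _ h
  · exact (rk_adj _ h).symm

/-- For every real `c > 1`, `Ex(M,n) = o(n^c)`. -/
theorem result (c : ℝ) (hc : 1 < c) :
    (fun n : ℕ => (Ex M n : ℝ)) =o[atTop] (fun n : ℕ => (n : ℝ) ^ c) := by
  rw [isLittleO_iff]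
  intro ε hε
  obtain ⟨N, hN⟩ := Pool.Agent.W247.OF.main 4 4 S acyclic_M c hc ε hε
  filter_upwards [eventually_ge_atTop N] with n hn
  have h0 : (0 : ℝ) ≤ (n : ℝ) ^ c := Real.rpow_nonneg (Nat.cast_nonneg n) _
  rw [Real.norm_of_nonneg (Nat.cast_nonneg _), Real.norm_of_nonneg h0]
  have h1 : Ex M n ≤ ⌊ε * (n : ℝ) ^ c⌋₊ := by
    apply csSup_le'
    rintro m ⟨A, hA, hav, rfl⟩
    apply Nat.le_floor
    refine hN n hn (Finset.univ.filter (fun p : Fin n × Fin n => A p.1 p.2 = 1)) ?_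
    rintro ⟨f, hf, g, hg, h⟩
    apply hav
    refine ⟨f, hf, g, hg, fun i j hij => ?_⟩
    have := h (i, j) (by simp [S, hij])
    simpa using this
  exact (Nat.cast_le.2 h1).trans (Nat.floor_le (by positivity))

end Pool.Agent.Results.MP_1bff7a_co.AlmostLinearM
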